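import Pool.Agent.Run7.h189.RC.Main

/-!
# Random constants instead of the constant 1: all large odd n
-/

set_option autoImplicit false

namespace Pool.Agent.Results.MP_1e1427_nt.RandomConstants

open MeasureTheory ProbabilityTheory Filter Finset

/-- the constants `a 0, a 1, …`: independent, `a w` uniform on the integers from `1` to `2 ^ ⌊w ^ (1 + η)⌋` -/
structure Constants (η : ℝ) {Ω : Type} [MeasurableSpace Ω] (μ : Measure Ω) (a : ℕ → Ω → ℕ) : Prop where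
  measurable : ∀ w, Measurable (a w)
  indep : iIndepFun a μ
  law : ∀ w k : ℕ, 1 ≤ k → k ≤ 2 ^ ⌊(w : ℝ) ^ (1 + η)⌋₊ → μ.real {ω | a w ω = k} = 1 / 2 ^ ⌊(w : ℝ) ^ (1 + η)⌋₊

/-- the `w` such that `n = x ^ 2 + y ^ 2 + z ^ 2 + w ^ 2` and `2 ^ (x + y) + 2 ^ (z + w) + c w` is a prime number
for some natural numbers `x, y, z` -/
def good (c : ℕ → ℕ) (n : ℕ) : Set ℕ :=
  {w | ∃ x y z : ℕ, n = x ^ 2 + y ^ 2 + z ^ 2 + w ^ 2 ∧ (2 ^ (x + y) + 2 ^ (z + w) + c w).Prime}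

lemma sqrt_lt_aux {x n : ℕ} (h : x ^ 2 ≤ n) : x ≤ Nat.sqrt n := Nat.le_sqrt'.2 h

lemma random (η : ℝ) (hη : 0 < η) (hη1 : η < 1 / 2) (Ω : Type) [MeasurableSpace Ω] (μ : Measure Ω) [IsProbabilityMeasure μ]
    (a : ℕ → Ω → ℕ) (h : Constants η μ a) :
    ∀ᵐ ω ∂μ, ∀ᶠ n : ℕ in atTop, Odd n → (n : ℝ) ^ (1 / 2 - η) < ((good (fun w => a w ω) n).ncard : ℝ) := by
  classical
  obtain ⟨c, hc, h1⟩ := Pool.Agent.TH696.FA.main_log (η / 12) (by linarith)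
  obtain ⟨C, hC, h2⟩ := Pool.Agent.Run7.h189.RC.fibreW (η / 12) (by linarith)
  have hgen := Pool.Agent.Run7.h189.RC.general (μ := μ) (a := a) η hη hη1 h.measurable h.indep h.law c C hc hC
    (fun v => 2 ^ (v.1 + v.2.1) + 2 ^ (v.2.2.1 + v.2.2.2)) (fun n v => n = v.1 ^ 2 + v.2.1 ^ 2 + v.2.2.1 ^ 2 + v.2.2.2 ^ 2)
    (by
      intro n hn
      obtain ⟨S, g1, g2⟩ := h1 n hn
      exact ⟨S, g1, fun v hv => (g2 v.1 v.2.1 v.2.2.1 v.2.2.2 hv).1⟩)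
    (by
      intro n v hv
      exact sqrt_lt_aux (by omega))
    (by
      intro n hn F w hF
      refine h2 n hn F (n - w ^ 2) w (Nat.sub_le _ _) fun v hv => ⟨(hF v hv).2, ?_⟩
      have g1 := (hF v hv).1
      rw [(hF v hv).2] at g1
      omega)
    (by
      intro n F w B hF
      exact Pool.Agent.Run7.h189.RC.fibreB F n w B fun v hv => ⟨(hF v hv).2.1, (hF v hv).1, (hF v hv).2.2⟩)
    (by
      intro n v hv
      have j1 : v.1 ≤ Nat.sqrt n := sqrt_lt_aux (by omega)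
      have j2 : v.2.1 ≤ Nat.sqrt n := sqrt_lt_aux (by omega)
      have j3 : v.2.2.1 ≤ Nat.sqrt n := sqrt_lt_aux (by omega)
      have j4 : v.2.2.2 ≤ Nat.sqrt n := sqrt_lt_aux (by omega)
      have k1 : 2 ^ (v.1 + v.2.1) ≤ 2 ^ (2 * Nat.sqrt n) := Nat.pow_le_pow_right Nat.two_pos (by omega)
      have k2 : 2 ^ (v.2.2.1 + v.2.2.2) ≤ 2 ^ (2 * Nat.sqrt n) := Nat.pow_le_pow_right Nat.two_pos (by omega)
      have k4 : 2 ^ (2 * Nat.sqrt n + 1) = 2 * 2 ^ (2 * Nat.sqrt n) := by ring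
      have k5 : 2 ^ (2 * Nat.sqrt n + 1) ≤ 2 ^ (4 * (Nat.sqrt n + 1)) := Nat.pow_le_pow_right Nat.two_pos (by omega)
      omega)
  filter_upwards [hgen] with ω hω
  filter_upwards [hω] with n hn hodd
  refine (hn hodd).trans_le ?_
  have hfin : (good (fun w => a w ω) n).Finite := by
    apply (range (n + 1)).finite_toSet.subset
    rintro w ⟨x, y, z, e, -⟩
    rw [mem_coe, mem_range]
    have : w ≤ w ^ 2 := Nat.le_self_pow two_ne_zero w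
    omega
  rw [Nat.cast_le, ← Set.ncard_coe_finset]
  apply Set.ncard_le_ncard _ hfin
  intro w hw
  rw [mem_coe, mem_filter] at hw
  obtain ⟨-, v, rfl, e, hp⟩ := hw
  exact ⟨v.1, v.2.1, v.2.2.1, e, hp⟩

/-- Let `0 < η < 1 / 2`. For independent constants `a w`, uniform on the integers from `1` to `2 ^ ⌊w ^ (1 + η)⌋`, almost surely
every large odd `n` has more than `n ^ (1 / 2 - η)` values `w` with natural numbers `x, y, z` such that
`n = x ^ 2 + y ^ 2 + z ^ 2 + w ^ 2` and `2 ^ (x + y) + 2 ^ (z + w) + a w` is a prime number. So there is such a fixed sequence. -/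
theorem result (η : ℝ) (hη : 0 < η) (hη1 : η < 1 / 2) :
    (∀ (Ω : Type) [MeasurableSpace Ω] (μ : Measure Ω) [IsProbabilityMeasure μ] (a : ℕ → Ω → ℕ), Constants η μ a →
      ∀ᵐ ω ∂μ, ∀ᶠ n : ℕ in atTop, Odd n → (n : ℝ) ^ (1 / 2 - η) < ((good (fun w => a w ω) n).ncard : ℝ)) ∧
    ∃ c : ℕ → ℕ, (∀ w, 1 ≤ c w ∧ c w ≤ 2 ^ ⌊(w : ℝ) ^ (1 + η)⌋₊) ∧
      ∀ᶠ n : ℕ in atTop, Odd n → (n : ℝ) ^ (1 / 2 - η) < ((good c n).ncard : ℝ) := by
  refine ⟨fun Ω _ μ _ a h => random η hη hη1 Ω μ a h, ?_⟩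
  obtain ⟨Ω, _, μ, _, a, hm, hi, hl⟩ := Pool.Agent.Run7.h189.RC.exists_model (fun w => ⌊(w : ℝ) ^ (1 + η)⌋₊)
  have h1 := random η hη hη1 Ω μ a ⟨hm, hi, hl⟩
  have h2 := Pool.Agent.Run7.h189.RC.range_ae (μ := μ) (a := a) η hm hl
  obtain ⟨ω, g1, g2⟩ := (h1.and h2).exists
  exact ⟨fun w => a w ω, g2, g1⟩

end Pool.Agent.Results.MP_1e1427_nt.RandomConstants
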