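import Mathlib

/-!
# MP_1e1427_nt: odd numbers in short intervals

The question is whether every odd `n > 1` is a sum of four squares `x² + y² + z² + w²` of natural numbers such that
`2^(x+y) + 2^(z+w) + 1` is prime. The starting results find, for all large odd `n`, quadruples for which all prime factors
of this number are larger than `B = c (log n)²`, and for almost all odd `n` quadruples with `B` up to a power of `n`
(`B ≤ c √n / (log n)²`). Here `B` is up to `c √n` and the numbers `n` are found in very short intervals: there is an absolute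
constant `C` such that for all `N` and `B ≥ 1` with `C B ≤ √N` the interval `[N - H, N]` contains such an odd `n`, for
`H = C √B N^(1/8)` and for `H = C N^(1/4)`; and for `C √B N^(1/8) ≤ H ≤ N / 2` it contains at least
`H / (C √B N^(1/8))` of them. So for `B = N^β` the gaps are at most `C N^(1/8 + β/2)` if `β ≤ 1/4`, and `C N^(1/4)` if
`1/4 ≤ β ≤ 1/2`. Theorems on almost all `n` say nothing about such intervals.

The proof. `2^(8c) + 2^(4c+1) + 1 = (2^(4c) + 1)²`, and if `2^k` divides `c` all prime factors are `1` modulo `2^(k+3)`. For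
`x = 4c + s`, `y = 4c - s`, `z = 2c + 1 + t`, `w = 2c - t` one has `n = 1 + 2 (20 c² + 2 c + s² + t² + t)`. Let `b = 2^k`. At the
point of the ellipse `20 c² + 2 c + s² = M` with `s ≈ 2 c` the tangent has the direction `(b, -10 b)`. Start with the first
multiple `c₀` of `b` after this point and the largest `s₀`; the remainder `e₀ = M - 20 c₀² - 2 c₀ - s₀²` is at most `4 c₀`. After
`j` steps in the direction `(b, -10 b)` it has become `e₀ - L j - 120 b² j²` with `0 ≤ L ≤ 262 b²`; so the last nonnegative one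
is at most `382 b² + 240 b² J` with `60 (b J)² ≤ s₀`, that is, `O(b √c₀)`, and the choice of `t` reduces this to its square
root.
-/

set_option autoImplicit false

namespace Pool.Agent.Results.MP_1e1427_nt.ShortIntervals

/-- the prime factors of `2^(8c) + 2^(4c+1) + 1 = (2^(4c) + 1)²` are larger than `2^(k+3)` if `2^k` divides `c` -/
theorem prime_gt {k c q : ℕ} (hc : 0 < c) (hk : 2 ^ k ∣ c) (hq : q.Prime)
    (h : q ∣ 2 ^ (8 * c) + 2 ^ (4 * c + 1) + 1) : 2 ^ (k + 3) < q := by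
  have : Fact q.Prime := ⟨hq⟩
  have h0 : 2 ^ (8 * c) + 2 ^ (4 * c + 1) + 1 = (2 ^ (4 * c) + 1) ^ 2 := by
    have : 2 ^ (8 * c) = (2 ^ (4 * c)) ^ 2 := by
      rw [← pow_mul]
      congr 1
      ring
    rw [this, pow_succ]
    ring
  rw [h0] at h
  have h1 : q ∣ 2 ^ (4 * c) + 1 := hq.dvd_of_dvd_pow h
  have h2 : q ≠ 2 := by
    rintro rfl
    have h3 : 2 ∣ 2 ^ (4 * c) := dvd_pow_self 2 (by omega)
    omega
  have hq2 : 2 < q := lt_of_le_of_ne hq.two_le (Ne.symm h2)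
  obtain ⟨r, m, hm, hcm⟩ := Nat.exists_eq_two_pow_mul_odd (n := c) (by omega)
  have hkr : k ≤ r := by
    rw [hcm] at hk
    have h3 : Nat.Coprime (2 ^ k) m := Nat.Coprime.pow_left k hm.coprime_two_left
    exact (Nat.pow_dvd_pow_iff_le_right (by norm_num : 1 < 2)).1 (h3.dvd_of_dvd_mul_right hk)
  have h4 : ((2 : ZMod q) ^ m) ^ 2 ^ (r + 2) = -1 := by
    have h5 : ((2 ^ (4 * c) + 1 : ℕ) : ZMod q) = 0 := (ZMod.natCast_eq_zero_iff _ _).2 h1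
    push_cast at h5
    have h6 : m * 2 ^ (r + 2) = 4 * c := by
      rw [hcm]
      ring
    rw [← pow_mul, h6]
    exact eq_neg_of_add_eq_zero_left h5
  have hne : (-1 : ZMod q) ≠ 1 := by
    have : Fact (2 < q) := ⟨hq2⟩
    exact ZMod.neg_one_ne_one
  have h7 : orderOf ((2 : ZMod q) ^ m) = 2 ^ (r + 2 + 1) := by
    apply orderOf_eq_prime_pow
    · rw [h4]
      exact hne
    · rw [pow_succ, pow_mul, h4]
      norm_num
  have h8 : ((2 : ZMod q) ^ m) ≠ 0 := by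
    intro h9
    rw [h9, zero_pow (by positivity)] at h4
    exact hne.symm (by
      have : (-1 : ZMod q) = 0 := h4.symm
      have h10 : (1 : ZMod q) = 0 := by
        have := congrArg (fun z => -z) this
        simp at this
      exact absurd h10 one_ne_zero)
  have h9 : orderOf ((2 : ZMod q) ^ m) ∣ q - 1 := ZMod.orderOf_dvd_card_sub_one h8
  rw [h7] at h9
  have h10 : 2 ^ (r + 2 + 1) ≤ q - 1 := Nat.le_of_dvd (by omega) h9
  have h11 : 2 ^ (k + 3) ≤ 2 ^ (r + 2 + 1) := Nat.pow_le_pow_right (by norm_num) (by omega)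
  omega

/-- the first coordinate -/
theorem step1 (b M : ℕ) (hb : 1 ≤ b) (hM : 44999 * b ^ 2 ≤ M) : ∃ c₀ R : ℕ, b ∣ c₀ ∧ 37 * b ≤ c₀ ∧ c₀ ^ 2 ≤ M ∧
    R + (20 * c₀ ^ 2 + 2 * c₀) = M ∧ R < (2 * c₀ + 1) ^ 2 ∧ (2 * c₀ - 13 * b) ^ 2 ≤ R := by
  classical
  have hb2 : 1 ≤ b ^ 2 := Nat.one_le_pow _ _ hb
  have hex : ∃ a : ℕ, M < 24 * (b * a) ^ 2 + 6 * (b * a) + 1 := by
    refine ⟨M, ?_⟩
    have h1 : M ≤ b * M := Nat.le_mul_of_pos_left M hb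
    have h2 := Nat.zero_le ((b * M) ^ 2)
    omega
  obtain ⟨a, ha, hmin⟩ : ∃ a : ℕ, M < 24 * (b * a) ^ 2 + 6 * (b * a) + 1 ∧
      ∀ a' < a, 24 * (b * a') ^ 2 + 6 * (b * a') + 1 ≤ M :=
    ⟨Nat.find hex, Nat.find_spec hex, fun a' h => not_lt.1 (Nat.find_min hex h)⟩
  have ha1 : 1 ≤ a := by
    by_contra h
    have h0 : a = 0 := by omega
    rw [h0] at ha
    simp at ha
    omega
  have hprev := hmin (a - 1) (by omega)
  obtain ⟨c₁, hc₁⟩ : ∃ c₁, c₁ = b * (a - 1) := ⟨_, rfl⟩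
  obtain ⟨c₀, hc₀⟩ : ∃ c₀, c₀ = b * a := ⟨_, rfl⟩
  have hc01 : c₀ = c₁ + b := by
    rw [hc₀, hc₁]
    obtain ⟨a', rfl⟩ : ∃ a', a = a' + 1 := ⟨a - 1, by omega⟩
    simp
    ring
  rw [← hc₀] at ha
  rw [← hc₁] at hprev
  have h37 : 37 * b ≤ c₀ := by
    by_contra h
    push Not at h
    have h1 : c₀ ^ 2 ≤ (37 * b) ^ 2 := Nat.pow_le_pow_left h.le 2
    have h2 : (37 * b) ^ 2 = 1369 * b ^ 2 := by ring
    have h3 : b ≤ b ^ 2 := Nat.le_self_pow (by norm_num) b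
    omega
  have h36 : 36 * b ≤ c₁ := by omega
  have hcb : 36 * b ^ 2 ≤ c₁ * b := by
    have := Nat.mul_le_mul_right b h36
    calc 36 * b ^ 2 = 36 * b * b := by ring
      _ ≤ c₁ * b := this
  have hcc : 36 * (c₁ * b) ≤ c₁ ^ 2 := by
    have := Nat.mul_le_mul_left c₁ h36
    calc 36 * (c₁ * b) = c₁ * (36 * b) := by ring
      _ ≤ c₁ * c₁ := this
      _ = c₁ ^ 2 := by ring
  have e1 : c₀ ^ 2 = c₁ ^ 2 + 2 * (c₁ * b) + b ^ 2 := by rw [hc01]; ring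
  obtain ⟨R, hR⟩ : ∃ R : ℕ, R + (20 * c₀ ^ 2 + 2 * c₀) = M := by
    refine ⟨M - (20 * c₀ ^ 2 + 2 * c₀), Nat.sub_add_cancel ?_⟩
    rw [e1, hc01]
    omega
  refine ⟨c₀, R, Dvd.intro a hc₀.symm, h37, ?_, hR, ?_, ?_⟩
  · rw [e1]
    omega
  · have e2 : (2 * c₀ + 1) ^ 2 = 4 * c₀ ^ 2 + 4 * c₀ + 1 := by ring
    rw [e2]
    omega
  · obtain ⟨u, hu⟩ : ∃ u, u + 11 * b = 2 * c₁ := ⟨2 * c₁ - 11 * b, by omega⟩
    have h3 : 2 * c₀ - 13 * b = u := by omega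
    rw [h3]
    have e3 : u ^ 2 + 44 * (c₁ * b) = 4 * c₁ ^ 2 + 121 * b ^ 2 := by
      have h4 : (u : ℤ) = 2 * c₁ - 11 * b := by
        have : (u : ℤ) + 11 * b = 2 * c₁ := by exact_mod_cast hu
        linarith
      zify
      rw [h4]
      ring
    rw [e1, hc01] at hR
    omega

/-- the second coordinate -/
theorem step2 (b c₀ R : ℕ) (hR1 : R < (2 * c₀ + 1) ^ 2) (hR2 : (2 * c₀ - 13 * b) ^ 2 ≤ R) :
    ∃ s₀ w e₀ : ℕ, s₀ + w = 2 * c₀ ∧ w ≤ 13 * b ∧ e₀ + s₀ ^ 2 = R ∧ e₀ ≤ 2 * s₀ := by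
  obtain ⟨s₀, hs₀⟩ : ∃ s₀, s₀ = Nat.sqrt R := ⟨_, rfl⟩
  have hs1 : s₀ ^ 2 ≤ R := by rw [hs₀, sq]; exact Nat.sqrt_le R
  have hs2 : R < (s₀ + 1) ^ 2 := by rw [hs₀, sq]; exact Nat.lt_succ_sqrt R
  have hs3 : s₀ ≤ 2 * c₀ := by
    have h1 : s₀ < 2 * c₀ + 1 := lt_of_pow_lt_pow_left₀ 2 (Nat.zero_le _) (hs1.trans_lt hR1)
    omega
  have hs4 : 2 * c₀ ≤ s₀ + 13 * b := by
    have h1 : 2 * c₀ - 13 * b < s₀ + 1 := lt_of_pow_lt_pow_left₀ 2 (Nat.zero_le _) (hR2.trans_lt hs2)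
    omega
  have e2 : (s₀ + 1) ^ 2 = s₀ ^ 2 + 2 * s₀ + 1 := by ring
  rw [e2] at hs2
  exact ⟨s₀, 2 * c₀ - s₀, R - s₀ ^ 2, by omega, by omega, by omega, by omega⟩

/-- the walk along the tangent -/
theorem step3 (b w e₀ s₀ : ℕ) (hb : 1 ≤ b) (hw : w ≤ 13 * b) (he₀ : e₀ ≤ 2 * s₀) : ∃ J e : ℕ,
    e + ((20 * b * w + 2 * b) * J + 120 * b ^ 2 * J ^ 2) = e₀ ∧ e ≤ 382 * b ^ 2 + 240 * b ^ 2 * J ∧
    60 * (b * J) ^ 2 ≤ s₀ := by
  classical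
  have hb2 : 1 ≤ b ^ 2 := Nat.one_le_pow _ _ hb
  obtain ⟨L, hL⟩ : ∃ L, L = 20 * b * w + 2 * b := ⟨_, rfl⟩
  have hLb : L ≤ 262 * b ^ 2 := by
    have h1 : b * w ≤ b * (13 * b) := Nat.mul_le_mul_left b hw
    have h2 : b ≤ b ^ 2 := Nat.le_self_pow (by norm_num) b
    rw [hL]
    calc 20 * b * w + 2 * b = 20 * (b * w) + 2 * b := by ring
      _ ≤ 20 * (b * (13 * b)) + 2 * b ^ 2 := by omega
      _ = 262 * b ^ 2 := by ring
  rw [← hL]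
  have hex2 : ∃ j : ℕ, e₀ < L * j + 120 * b ^ 2 * j ^ 2 := by
    refine ⟨e₀ + 1, ?_⟩
    have h1 : 1 * (e₀ + 1) ≤ b ^ 2 * (e₀ + 1) ^ 2 :=
      Nat.mul_le_mul hb2 (Nat.le_self_pow (by norm_num) _)
    have h2 : 120 * b ^ 2 * (e₀ + 1) ^ 2 = 120 * (b ^ 2 * (e₀ + 1) ^ 2) := by ring
    rw [h2]
    omega
  obtain ⟨j, hj, hjmin⟩ : ∃ j : ℕ, e₀ < L * j + 120 * b ^ 2 * j ^ 2 ∧
      ∀ j' < j, L * j' + 120 * b ^ 2 * j' ^ 2 ≤ e₀ :=
    ⟨Nat.find hex2, Nat.find_spec hex2, fun a' h => not_lt.1 (Nat.find_min hex2 h)⟩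
  have hj1 : 1 ≤ j := by
    by_contra h
    have h0 : j = 0 := by omega
    rw [h0] at hj
    simp at hj
  obtain ⟨J, rfl⟩ : ∃ J, j = J + 1 := ⟨j - 1, by omega⟩
  have hJ := hjmin J (by omega)
  have e1 : L * (J + 1) + 120 * b ^ 2 * (J + 1) ^ 2 =
      L * J + 120 * b ^ 2 * J ^ 2 + (L + 240 * b ^ 2 * J + 120 * b ^ 2) := by ring
  rw [e1] at hj
  refine ⟨J, e₀ - (L * J + 120 * b ^ 2 * J ^ 2), Nat.sub_add_cancel hJ, by omega, ?_⟩
  have e2 : 120 * b ^ 2 * J ^ 2 = 120 * (b * J) ^ 2 := by ring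
  rw [e2] at hJ
  have := Nat.zero_le (L * J)
  omega

/-- the third coordinate -/
theorem step4 (e : ℕ) : ∃ t : ℕ, t ^ 2 + t ≤ e ∧ e < t ^ 2 + 3 * t + 2 := by
  classical
  have hex3 : ∃ t : ℕ, e < t ^ 2 + t := ⟨e + 1, by
    have := Nat.zero_le ((e + 1) ^ 2)
    omega⟩
  obtain ⟨t', ht', htmin⟩ : ∃ t : ℕ, e < t ^ 2 + t ∧ ∀ t' < t, t' ^ 2 + t' ≤ e :=
    ⟨Nat.find hex3, Nat.find_spec hex3, fun a' h => not_lt.1 (Nat.find_min hex3 h)⟩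
  have ht1 : 1 ≤ t' := by
    by_contra h
    have h0 : t' = 0 := by omega
    rw [h0] at ht'
    simp at ht'
  obtain ⟨t, rfl⟩ : ∃ t, t' = t + 1 := ⟨t' - 1, by omega⟩
  refine ⟨t, htmin t (by omega), ?_⟩
  have e1 : (t + 1) ^ 2 + (t + 1) = t ^ 2 + 3 * t + 2 := by ring
  rw [e1] at ht'
  exact ht'

/-- the points of the ellipsoid -/
theorem lattice (b N : ℕ) (hb : 1 ≤ b) (hN : 90000 * b ^ 2 ≤ N) :
    ∃ c s t e : ℕ, 0 < c ∧ b ∣ c ∧ s ≤ 4 * c ∧ t ≤ 2 * c ∧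
      40 * c ^ 2 + 4 * c + 1 + 2 * s ^ 2 + 2 * t ^ 2 + 2 * t ≤ N ∧
      N ≤ 40 * c ^ 2 + 4 * c + 1 + 2 * s ^ 2 + 2 * t ^ 2 + 2 * t + (4 * t + 3) ∧ t ^ 2 ≤ e ∧
      ∃ c₀ J : ℕ, c₀ ^ 2 ≤ N ∧ 1 ≤ c₀ ∧ e ≤ 4 * c₀ ∧ e ≤ 382 * b ^ 2 + 240 * b ^ 2 * J ∧
        30 * (b * J) ^ 2 ≤ c₀ := by
  obtain ⟨M, hM⟩ : ∃ M, M = (N - 1) / 2 := ⟨_, rfl⟩
  have hb2 : 1 ≤ b ^ 2 := Nat.one_le_pow _ _ hb
  have hM1 : 2 * M + 1 ≤ N := by omega
  have hM2 : N ≤ 2 * M + 2 := by omega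
  obtain ⟨c₀, R, hbc, h37, hcM, hR, hR1, hR2⟩ := step1 b M hb (by omega)
  obtain ⟨s₀, w, e₀, hw, hw13, he₀, he1⟩ := step2 b c₀ R hR1 hR2
  obtain ⟨J, e, he, heb, hx⟩ := step3 b w e₀ s₀ hb hw13 he1
  obtain ⟨t, ht1, ht2⟩ := step4 e
  have hxs : 10 * (b * J) ≤ s₀ := by
    have h1 : b * J ≤ (b * J) ^ 2 := Nat.le_self_pow (by norm_num) _
    omega
  obtain ⟨s, hs⟩ : ∃ s, s + 10 * (b * J) = s₀ := ⟨s₀ - 10 * (b * J), Nat.sub_add_cancel hxs⟩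
  have hc1 : 1 ≤ c₀ := by omega
  have he4 : e ≤ 4 * c₀ := by omega
  have h1 : 20 * (c₀ + b * J) ^ 2 + 2 * (c₀ + b * J) + s ^ 2 =
      20 * c₀ ^ 2 + 2 * c₀ + s₀ ^ 2 + ((20 * b * w + 2 * b) * J + 120 * b ^ 2 * J ^ 2) := by
    have h5 : (s₀ : ℤ) = 2 * c₀ - w := by
      have h4 : (s₀ : ℤ) + w = 2 * c₀ := by exact_mod_cast hw
      linarith
    have h2 : (s : ℤ) = 2 * c₀ - w - 10 * (b * J) := by
      have h3 : (s : ℤ) + 10 * (b * J) = s₀ := by exact_mod_cast hs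
      linarith
    zify
    rw [h2, h5]
    ring
  have hkey : 20 * (c₀ + b * J) ^ 2 + 2 * (c₀ + b * J) + s ^ 2 + e = M := by omega
  refine ⟨c₀ + b * J, s, t, e, by omega, hbc.add (Dvd.intro J rfl), by omega, ?_, by omega, by omega, by omega, c₀, J,
    by omega, hc1, he4, heb, by omega⟩
  by_contra h
  push Not at h
  have h2 : 2 * c₀ + 1 ≤ t := by omega
  have h3 : (2 * c₀ + 1) ^ 2 ≤ t ^ 2 := Nat.pow_le_pow_left h2 2
  have h4 : (2 * c₀ + 1) ^ 2 = 4 * c₀ ^ 2 + 4 * c₀ + 1 := by ring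
  have h5 := Nat.zero_le (c₀ ^ 2)
  omega

/-- `n = x² + y² + z² + w²` with all prime factors of `2^(x+y) + 2^(z+w) + 1` larger than `B` -/
def Rep (B : ℝ) (n : ℕ) : Prop :=
  ∃ x y z w : ℕ, n = x ^ 2 + y ^ 2 + z ^ 2 + w ^ 2 ∧
    ∀ q : ℕ, q.Prime → q ∣ 2 ^ (x + y) + 2 ^ (z + w) + 1 → B < q

theorem rep {k c s t : ℕ} {B : ℝ} (hc : 0 < c) (hk : 2 ^ k ∣ c) (hs : s ≤ 4 * c) (ht : t ≤ 2 * c)
    (hB : B < 2 ^ (k + 1)) : Rep B (40 * c ^ 2 + 4 * c + 1 + 2 * s ^ 2 + 2 * t ^ 2 + 2 * t) := by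
  refine ⟨4 * c + s, 4 * c - s, 2 * c + 1 + t, 2 * c - t, ?_, fun q hq h => ?_⟩
  · zify [hs, ht]
    ring
  · have h1 : 4 * c + s + (4 * c - s) = 8 * c := by omega
    have h2 : 2 * c + 1 + t + (2 * c - t) = 4 * c + 1 := by omega
    rw [h1, h2] at h
    have h3 := prime_gt hc hk hq h
    have h4 : ((2 ^ (k + 3) : ℕ) : ℝ) < q := by exact_mod_cast h3
    push_cast at h4
    have h5 : (2 : ℝ) ^ (k + 1) ≤ 2 ^ (k + 3) := pow_le_pow_right₀ (by norm_num) (by omega)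
    linarith

/-- one good number below `N` -/
theorem one (N : ℕ) (B : ℝ) (hB : 1 ≤ B) (hBN : 300 * B ≤ √(N : ℝ)) : ∃ n : ℕ, n ≤ N ∧ Odd n ∧ Rep B n ∧
    (N : ℝ) - n ≤ 87 * (√B * (N : ℝ) ^ ((1 : ℝ) / 8)) ∧ (N : ℝ) - n ≤ 11 * (N : ℝ) ^ ((1 : ℝ) / 4) := by
  obtain ⟨k, hk1, hk2⟩ := exists_nat_pow_near hB (by norm_num : (1 : ℝ) < 2)
  obtain ⟨b, hb⟩ : ∃ b : ℕ, b = 2 ^ k := ⟨_, rfl⟩
  have hb1 : 1 ≤ b := by rw [hb]; exact Nat.one_le_two_pow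
  have hbB : (b : ℝ) ≤ B := by rw [hb]; push_cast; exact hk1
  have hN0 : (0 : ℝ) ≤ N := Nat.cast_nonneg N
  have hbr : (1 : ℝ) ≤ b := by exact_mod_cast hb1
  have hbN : 90000 * b ^ 2 ≤ N := by
    have h1 : 300 * (b : ℝ) ≤ √(N : ℝ) := by linarith
    have h2 : (300 * (b : ℝ)) ^ 2 ≤ √(N : ℝ) ^ 2 := pow_le_pow_left₀ (by positivity) h1 2
    rw [Real.sq_sqrt hN0] at h2
    have h3 : (90000 * (b : ℝ) ^ 2) ≤ N := by linarith
    exact_mod_cast h3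
  obtain ⟨c, s, t, e, hc, hbc, hs, ht, hV1, hV2, hte, c₀, J, hc0, hc1, he4, heb, hJ⟩ := lattice b N hb1 hbN
  obtain ⟨n, hn⟩ : ∃ n, n = 40 * c ^ 2 + 4 * c + 1 + 2 * s ^ 2 + 2 * t ^ 2 + 2 * t := ⟨_, rfl⟩
  rw [← hn] at hV1 hV2
  have hNn : (N : ℝ) - n ≤ 4 * t + 3 := by
    have : (N : ℝ) ≤ n + (4 * t + 3) := by exact_mod_cast hV2
    linarith
  obtain ⟨v, hv⟩ : ∃ v : ℝ, v = (N : ℝ) ^ ((1 : ℝ) / 8) := ⟨_, rfl⟩
  have hN1 : (1 : ℝ) ≤ N := by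
    have : 1 ≤ N := by
      have := Nat.one_le_pow 2 b hb1
      omega
    exact_mod_cast this
  have hv1 : 1 ≤ v := by rw [hv]; exact Real.one_le_rpow hN1 (by norm_num)
  have hv8 : v ^ 8 = N := by
    rw [hv, ← Real.rpow_natCast, ← Real.rpow_mul hN0]
    norm_num
  have hv2 : v ^ 2 = (N : ℝ) ^ ((1 : ℝ) / 4) := by
    rw [hv, ← Real.rpow_natCast, ← Real.rpow_mul hN0]
    norm_num
  have hv2' : 1 ≤ v ^ 2 := one_le_pow₀ hv1
  have hc4 : (c₀ : ℝ) ≤ v ^ 4 := by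
    have h1 : (c₀ : ℝ) ^ 2 ≤ (v ^ 4) ^ 2 := by
      have h2 : (c₀ : ℝ) ^ 2 ≤ N := by exact_mod_cast hc0
      have h3 : (v ^ 4) ^ 2 = v ^ 8 := by ring
      rw [h3, hv8]
      exact h2
    exact le_of_sq_le_sq h1 (by positivity)
  have he4' : (e : ℝ) ≤ 4 * v ^ 4 := by
    have h1 : (e : ℝ) ≤ 4 * c₀ := by exact_mod_cast he4
    linarith
  have hte' : (t : ℝ) ^ 2 ≤ e := by exact_mod_cast hte
  have hJ' : 5 * ((b : ℝ) * J) ≤ v ^ 2 := by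
    have h1 : 30 * ((b : ℝ) * J) ^ 2 ≤ c₀ := by exact_mod_cast hJ
    have h2 : (5 * ((b : ℝ) * J)) ^ 2 ≤ (v ^ 2) ^ 2 := by
      have h3 : (v ^ 2) ^ 2 = v ^ 4 := by ring
      have h4 := sq_nonneg ((b : ℝ) * J)
      rw [h3]
      calc (5 * ((b : ℝ) * J)) ^ 2 = 25 * ((b : ℝ) * J) ^ 2 := by ring
        _ ≤ v ^ 4 := by linarith
    exact le_of_sq_le_sq h2 (by positivity)
  have he430 : (e : ℝ) ≤ 430 * b * v ^ 2 := by
    rcases le_total (b : ℝ) (v ^ 2) with h | h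
    · have h1 : (e : ℝ) ≤ 382 * (b : ℝ) ^ 2 + 240 * (b : ℝ) ^ 2 * J := by exact_mod_cast heb
      have h2 : (b : ℝ) * b ≤ b * v ^ 2 := mul_le_mul_of_nonneg_left h (by positivity)
      have h3 : (b : ℝ) * (5 * ((b : ℝ) * J)) ≤ b * v ^ 2 := mul_le_mul_of_nonneg_left hJ' (by positivity)
      calc (e : ℝ) ≤ 382 * (b * b) + 48 * (b * (5 * ((b : ℝ) * J))) := by linarith
        _ ≤ 382 * (b * v ^ 2) + 48 * (b * v ^ 2) := by linarith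
        _ = 430 * b * v ^ 2 := by ring
    · have h1 : v ^ 2 * v ^ 2 ≤ b * v ^ 2 := mul_le_mul_of_nonneg_right h (by positivity)
      have h2 : 0 ≤ (b : ℝ) * v ^ 2 := by positivity
      calc (e : ℝ) ≤ 4 * (v ^ 2 * v ^ 2) := by linarith
        _ ≤ 4 * (b * v ^ 2) := by linarith
        _ ≤ 430 * b * v ^ 2 := by linarith
  refine ⟨n, hV1, ?_, ?_, ?_, ?_⟩
  · refine ⟨20 * c ^ 2 + 2 * c + s ^ 2 + t ^ 2 + t, ?_⟩
    rw [hn]
    ring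
  · rw [hn]
    exact rep hc (by rw [← hb]; exact hbc) hs ht hk2
  · rw [← hv]
    have h1 : √(b : ℝ) ≤ √B := Real.sqrt_le_sqrt hbB
    have h2 : 1 ≤ √(b : ℝ) := Real.one_le_sqrt.2 hbr
    have h3 : (t : ℝ) ≤ 21 * (√(b : ℝ) * v) := by
      refine le_of_sq_le_sq ?_ (by positivity)
      have h4 : (21 * (√(b : ℝ) * v)) ^ 2 = 441 * (√(b : ℝ) ^ 2 * v ^ 2) := by ring
      rw [h4, Real.sq_sqrt (by positivity)]
      have h5 : 0 ≤ (b : ℝ) * v ^ 2 := by positivity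
      calc (t : ℝ) ^ 2 ≤ e := hte'
        _ ≤ 430 * b * v ^ 2 := he430
        _ ≤ 441 * (b * v ^ 2) := by linarith
    have h4 : √(b : ℝ) * v ≤ √B * v := mul_le_mul_of_nonneg_right h1 (by positivity)
    have h5 : 1 * 1 ≤ √(b : ℝ) * v := mul_le_mul h2 hv1 (by norm_num) (by positivity)
    linarith
  · rw [← hv2]
    have h3 : (t : ℝ) ≤ 2 * v ^ 2 := by
      refine le_of_sq_le_sq ?_ (by positivity)
      calc (t : ℝ) ^ 2 ≤ e := hte'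
        _ ≤ 4 * v ^ 4 := he4'
        _ = (2 * v ^ 2) ^ 2 := by ring
    linarith

/-- many good numbers below `N` -/
theorem many (N : ℕ) (B H : ℝ) (hB : 1 ≤ B) (hBN : 600 * B ≤ √(N : ℝ))
    (hH : 600 * (√B * (N : ℝ) ^ ((1 : ℝ) / 8)) ≤ H) (hHN : H ≤ N / 2) :
    H / (600 * (√B * (N : ℝ) ^ ((1 : ℝ) / 8))) ≤
      ({n : ℕ | (N : ℝ) - H ≤ n ∧ n ≤ N ∧ Odd n ∧ Rep B n}.ncard : ℝ) := by
  classical
  have hN0 : (0 : ℝ) ≤ N := Nat.cast_nonneg N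
  have hN1 : (1 : ℝ) ≤ N := by
    have h1 : (1 : ℝ) ≤ √(N : ℝ) := by linarith
    have h2 : (1 : ℝ) ^ 2 ≤ √(N : ℝ) ^ 2 := pow_le_pow_left₀ (by norm_num) h1 2
    rwa [Real.sq_sqrt hN0, one_pow] at h2
  obtain ⟨E, hE⟩ : ∃ E : ℝ, E = √B * (N : ℝ) ^ ((1 : ℝ) / 8) := ⟨_, rfl⟩
  have hE1 : 1 ≤ E := by
    rw [hE]
    have h1 : 1 ≤ √B := Real.one_le_sqrt.2 hB
    have h2 : 1 ≤ (N : ℝ) ^ ((1 : ℝ) / 8) := Real.one_le_rpow hN1 (by norm_num)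
    have h3 : 1 * 1 ≤ √B * (N : ℝ) ^ ((1 : ℝ) / 8) := mul_le_mul h1 h2 (by norm_num) (by positivity)
    linarith
  rw [← hE] at hH ⊢
  obtain ⟨D, hD⟩ : ∃ D : ℕ, D = ⌊87 * E⌋₊ + 1 := ⟨_, rfl⟩
  have hD1 : 87 * E < D := by
    rw [hD]
    push_cast
    exact Nat.lt_floor_add_one _
  have hD2 : (D : ℝ) ≤ 88 * E := by
    rw [hD]
    push_cast
    have := Nat.floor_le (by positivity : 0 ≤ 87 * E)
    linarith
  have hD0 : (0 : ℝ) < D := by linarith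
  obtain ⟨K, hK⟩ : ∃ K : ℕ, K = ⌊H / D⌋₊ := ⟨_, rfl⟩
  have hH0 : 0 < H := by linarith
  have hK1 : (K : ℝ) * D ≤ H := by
    rw [← le_div_iff₀ hD0, hK]
    exact Nat.floor_le (by positivity)
  have hK2 : H / (600 * E) ≤ K := by
    have h1 : H / D < K + 1 := by
      rw [hK]
      exact Nat.lt_floor_add_one _
    have h2 : H / (88 * E) ≤ H / D := div_le_div_of_nonneg_left hH0.le hD0 hD2
    have h3 : H / (88 * E) = H / (600 * E) * (600 / 88) := by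
      field_simp
    have h4 : 1 ≤ H / (600 * E) := by
      rw [le_div_iff₀ (by linarith)]
      linarith
    linarith
  have key : ∀ i : ℕ, i < K → ∃ n : ℕ, Odd n ∧ Rep B n ∧ n + i * D ≤ N ∧ N < n + (i + 1) * D := by
    intro i hi
    have hiD : ((i : ℝ) + 1) * D ≤ H := by
      have : (i : ℝ) + 1 ≤ K := by exact_mod_cast hi
      exact (mul_le_mul_of_nonneg_right this hD0.le).trans hK1
    have hiN : i * D ≤ N := by
      have : (i : ℝ) * D ≤ N := by linarith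
      exact_mod_cast this
    obtain ⟨N', hN'⟩ : ∃ N', N' + i * D = N := ⟨N - i * D, Nat.sub_add_cancel hiN⟩
    have hN'r : (N' : ℝ) + i * D = N := by exact_mod_cast hN'
    have hN'2 : (N : ℝ) / 2 ≤ N' := by linarith
    have h1 : 300 * B ≤ √(N' : ℝ) := by
      have h2 : √((N : ℝ) / 4) ≤ √(N' : ℝ) := Real.sqrt_le_sqrt (by linarith)
      have h3 : √((N : ℝ) / 4) = √(N : ℝ) / 2 := by
        rw [Real.sqrt_div hN0]
        congr 1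
        rw [show (4 : ℝ) = 2 ^ 2 by norm_num]
        exact Real.sqrt_sq (by norm_num)
      linarith
    obtain ⟨n, h4, h5, h6, h7, -⟩ := one N' B hB h1
    have h8 : (N' : ℝ) ^ ((1 : ℝ) / 8) ≤ (N : ℝ) ^ ((1 : ℝ) / 8) :=
      Real.rpow_le_rpow (Nat.cast_nonneg _) (by
        have : 0 ≤ (i : ℝ) * D := by positivity
        linarith) (by norm_num)
    have h9 : √B * (N' : ℝ) ^ ((1 : ℝ) / 8) ≤ E := by
      rw [hE]
      exact mul_le_mul_of_nonneg_left h8 (Real.sqrt_nonneg _)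
    refine ⟨n, h5, h6, by omega, ?_⟩
    have h10 : (N : ℝ) < n + (i + 1) * D := by linarith
    exact_mod_cast h10
  choose! f hf1 hf2 hf3 hf4 using key
  have hinj : Set.InjOn f (Finset.range K : Set ℕ) := by
    intro i hi j hj hij
    rw [Finset.mem_coe, Finset.mem_range] at hi hj
    have a1 := hf3 i hi
    have a2 := hf4 i hi
    have a3 := hf3 j hj
    have a4 := hf4 j hj
    rw [← hij] at a3 a4
    have b1 : i * D < (j + 1) * D := by omega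
    have b2 : j * D < (i + 1) * D := by omega
    have c1 := lt_of_mul_lt_mul_right b1 (Nat.zero_le D)
    have c2 := lt_of_mul_lt_mul_right b2 (Nat.zero_le D)
    omega
  have hfin : {n : ℕ | (N : ℝ) - H ≤ n ∧ n ≤ N ∧ Odd n ∧ Rep B n}.Finite :=
    (Set.finite_Iic N).subset fun n hn => hn.2.1
  have hsub : ((Finset.range K).image f : Set ℕ) ⊆ {n : ℕ | (N : ℝ) - H ≤ n ∧ n ≤ N ∧ Odd n ∧ Rep B n} := by
    intro n hn
    rw [Finset.coe_image] at hn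
    obtain ⟨i, hi, rfl⟩ := hn
    rw [Finset.mem_coe, Finset.mem_range] at hi
    refine ⟨?_, by have := hf3 i hi; omega, hf1 i hi, hf2 i hi⟩
    have h1 : (N : ℝ) < f i + (i + 1) * D := by exact_mod_cast hf4 i hi
    have h2 : ((i : ℝ) + 1) * D ≤ H := by
      have : (i : ℝ) + 1 ≤ K := by exact_mod_cast hi
      exact (mul_le_mul_of_nonneg_right this hD0.le).trans hK1
    linarith
  have h1 := Set.ncard_le_ncard hsub hfin
  rw [Set.ncard_coe_finset, Finset.card_image_of_injOn hinj, Finset.card_range] at h1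
  have h2 : (K : ℝ) ≤ ({n : ℕ | (N : ℝ) - H ≤ n ∧ n ≤ N ∧ Odd n ∧ Rep B n}.ncard : ℝ) := by exact_mod_cast h1
  linarith

/-- **Odd numbers in short intervals.** There is a constant `C` such that for all `N` and all `B ≥ 1` with `C B ≤ √N`:
(1) The interval `[N - C √B N^(1/8), N]` and the interval `[N - C N^(1/4), N]` contain an odd number
`n = x² + y² + z² + w²` with all prime factors of `2^(x+y) + 2^(z+w) + 1` larger than `B`. (2) If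
`C √B N^(1/8) ≤ H ≤ N / 2` then there are at least `H / (C √B N^(1/8))` such numbers `n` in `[N - H, N]`. -/
theorem result : ∃ C : ℝ, 0 < C ∧ ∀ (N : ℕ) (B : ℝ), 1 ≤ B → C * B ≤ √(N : ℝ) →
    (∃ n : ℕ, n ≤ N ∧ Odd n ∧ Rep B n ∧
      (N : ℝ) - n ≤ C * min (√B * (N : ℝ) ^ ((1 : ℝ) / 8)) ((N : ℝ) ^ ((1 : ℝ) / 4))) ∧
    ∀ H : ℝ, C * (√B * (N : ℝ) ^ ((1 : ℝ) / 8)) ≤ H → H ≤ N / 2 →
      H / (C * (√B * (N : ℝ) ^ ((1 : ℝ) / 8))) ≤
        ({n : ℕ | (N : ℝ) - H ≤ n ∧ n ≤ N ∧ Odd n ∧ Rep B n}.ncard : ℝ) := by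
  refine ⟨600, by norm_num, fun N B hB hBN => ⟨?_, fun H hH hHN => many N B H hB hBN hH hHN⟩⟩
  obtain ⟨n, h1, h2, h3, h4, h5⟩ := one N B hB (by linarith)
  refine ⟨n, h1, h2, h3, ?_⟩
  rw [mul_min_of_nonneg _ _ (by norm_num : (0 : ℝ) ≤ 600)]
  have h6 : 0 ≤ √B * (N : ℝ) ^ ((1 : ℝ) / 8) := by positivity
  have h7 : 0 ≤ (N : ℝ) ^ ((1 : ℝ) / 4) := by positivity
  exact le_min (by linarith) (by linarith)

end Pool.Agent.Results.MP_1e1427_nt.ShortIntervals
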