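import Mathlib
import Pool.Agent.Run7.h129.BU.TD
import Pool.Agent.Results.MP_1e1427_nt.AlmostAllOddIntegers

/-!
# Four squares `n = x² + y² + z² + w²` and `2 ^ (x + y) + 2 ^ (z + w) + 1` for almost all terms `n = ⌊β m ^ κ⌋`

The starting theorem `AlmostAllOddIntegers`: almost all odd `n ≤ X` have quadruples for which all prime factors of
`2 ^ (x + y) + 2 ^ (z + w) + 1` are large, about as large as `√X / (log X)²`. Here `n` runs over ARBITRARILY SPARSE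
sequences: for every `κ ≥ 1` there is a set `E κ` of real numbers, of Hausdorff dimension less than one, such that for
all `β > 0` outside of `E κ` the same holds for almost all terms `n = ⌊β m ^ κ⌋`.

The law for arbitrary sets of integers along `⌊β m ^ κ⌋` is `Pool.Agent.Run7.h129.BU.main_U`.
-/

set_option autoImplicit false

open Filter MeasureTheory

namespace Pool.Agent.Results.MP_1e1427_nt.SparseSequences

/-- The quadruples of natural numbers with `n = x² + y² + z² + w²` for which all prime factors of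
`2 ^ (x + y) + 2 ^ (z + w) + 1` are larger than `B`. -/
def quads (B : ℝ) (n : ℕ) : Set (ℕ × ℕ × ℕ × ℕ) :=
  {p | n = p.1 ^ 2 + p.2.1 ^ 2 + p.2.2.1 ^ 2 + p.2.2.2 ^ 2 ∧
    ∀ q : ℕ, q.Prime → q ∣ 2 ^ (p.1 + p.2.1) + 2 ^ (p.2.2.1 + p.2.2.2) + 1 → B < q}

/-- At least `δ (log n)²` quadruples of `n` are such that all prime factors of `2 ^ (x + y) + 2 ^ (z + w) + 1` are
larger than `δ √n / (log n)²`. -/
def Rich (δ : ℝ) (n : ℕ) : Prop :=
  δ * (Real.log n) ^ 2 ≤ ((quads (δ * √(n : ℝ) / (Real.log n) ^ 2) n).ncard : ℝ)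

/-- The number of the `1 ≤ m ≤ M` for which `⌊β m ^ κ⌋` has the property `P`. -/
noncomputable def count (β κ : ℝ) (P : ℕ → Prop) (M : ℕ) : ℕ :=
  {m : ℕ | 1 ≤ m ∧ m ≤ M ∧ P ⌊β * (m : ℝ) ^ κ⌋₊}.ncard

lemma quads_finite (B : ℝ) (n : ℕ) : (quads B n).Finite := by
  refine (((Finset.range (n + 1)) ×ˢ ((Finset.range (n + 1)) ×ˢ ((Finset.range (n + 1)) ×ˢ
    (Finset.range (n + 1))))).finite_toSet).subset ?_
  rintro ⟨x, y, z, w⟩ ⟨h, -⟩
  simp only at h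
  simp only [Finset.coe_product, Set.mem_prod, Finset.mem_coe, Finset.mem_range]
  have e : ∀ t : ℕ, t ≤ t ^ 2 := fun t => Nat.le_self_pow (by norm_num) t
  have := e x; have := e y; have := e z; have := e w
  refine ⟨by omega, by omega, by omega, by omega⟩

lemma quads_mono {B B' : ℝ} (h : B' ≤ B) (n : ℕ) : (quads B n).ncard ≤ (quads B' n).ncard :=
  Set.ncard_le_ncard (fun _ hp => ⟨hp.1, fun q hq hd => lt_of_le_of_lt h (hp.2 q hq hd)⟩) (quads_finite B' n)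

lemma base (ε : ℝ) (hε : 0 < ε) : ∃ δ : ℝ, 0 < δ ∧
    ∀ᶠ X : ℕ in atTop, ({i : ℕ | X / 2 < i ∧ i ≤ X ∧ i ∈ {n : ℕ | Odd n ∧ ¬ Rich δ n}}.ncard : ℝ) ≤ ε * X := by
  obtain ⟨δ₀, hδ₀, A, hA, X₀, h⟩ := Pool.Agent.Results.MP_1e1427_nt.AlmostAllOddIntegers.result ε hε
  refine ⟨min (δ₀ * A) (1 / (4 * A)), lt_min (by positivity) (by positivity), ?_⟩
  set δ := min (δ₀ * A) (1 / (4 * A)) with hδ
  have hδ0 : 0 < δ := lt_min (by positivity) (by positivity)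
  have hδ1 : δ ≤ δ₀ * A := min_le_left _ _
  have hδ2 : δ ≤ 1 / (4 * A) := min_le_right _ _
  have hev : ∀ᶠ x : ℝ in atTop, A * (Real.log x) ^ 2 ≤ √x := by
    have h1 := (isLittleO_log_rpow_rpow_atTop (2 : ℝ) (by norm_num : (0 : ℝ) < 1 / 2)).bound
      (by positivity : (0 : ℝ) < 1 / A)
    filter_upwards [h1, eventually_ge_atTop 1] with x hx hx1
    have hl : 0 ≤ Real.log x := Real.log_nonneg hx1
    rw [Real.rpow_two, Real.norm_of_nonneg (by positivity), Real.norm_of_nonneg (by positivity),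
      ← Real.sqrt_eq_rpow, div_mul_eq_mul_div, one_mul, le_div_iff₀ hA] at hx
    linarith
  have hev' := tendsto_natCast_atTop_atTop (R := ℝ) |>.eventually hev
  filter_upwards [hev', eventually_ge_atTop X₀, eventually_ge_atTop 16] with X hX1 hX2 hX16
  have hXR : (16 : ℝ) ≤ X := by exact_mod_cast hX16
  have hX0 : (0 : ℝ) < X := by linarith
  have hlX : 0 < Real.log X := Real.log_pos (by linarith)
  have hsX : 0 < √(X : ℝ) := Real.sqrt_pos.2 hX0
  set B : ℝ := √(X : ℝ) / (A * (Real.log X) ^ 2) with hB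
  have hB1 : 1 ≤ B := by
    rw [hB, le_div_iff₀ (by positivity), one_mul]
    exact hX1
  have h1 := h X hX2 B hB1 (by
    rw [hB]
    apply le_of_eq
    field_simp)
  refine le_trans ?_ h1
  rw [Nat.cast_le, ← Set.ncard_coe_finset]
  refine Set.ncard_le_ncard ?_ (Finset.finite_toSet _)
  rintro n ⟨hn1, hn2, hodd, hnr⟩
  rw [Finset.mem_coe, Finset.mem_filter, Finset.mem_range]
  refine ⟨by omega, hodd, ?_⟩
  change ((quads B n).ncard : ℝ) < δ₀ * (√(X : ℝ) / B)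
  unfold Rich at hnr
  push Not at hnr
  have hnX : (n : ℝ) ≤ X := by exact_mod_cast hn2
  have hn8 : (X : ℝ) ≤ 2 * n := by exact_mod_cast (by omega : X ≤ 2 * n)
  have hn0 : (0 : ℝ) < n := by linarith
  have hln : Real.log X ≤ 2 * Real.log n := by
    have h2 : (X : ℝ) ≤ (n : ℝ) ^ 2 := by nlinarith
    have := Real.log_le_log hX0 h2
    rw [Real.log_pow] at this
    exact_mod_cast this
  have hln0 : 0 < Real.log n := by linarith
  have hlnX : Real.log n ≤ Real.log X := Real.log_le_log hn0 hnX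
  have hBn : δ * √(n : ℝ) / (Real.log n) ^ 2 ≤ B := by
    rw [hB, div_le_div_iff₀ (by positivity) (by positivity)]
    have e1 : √(n : ℝ) ≤ √(X : ℝ) := Real.sqrt_le_sqrt hnX
    have e2 : (Real.log X) ^ 2 ≤ 4 * (Real.log n) ^ 2 := by nlinarith
    have e3 : δ * (4 * A) ≤ 1 := by
      rw [le_div_iff₀ (by positivity)] at hδ2
      exact hδ2
    calc δ * √(n : ℝ) * (A * (Real.log X) ^ 2) ≤ δ * √(X : ℝ) * (A * (4 * (Real.log n) ^ 2)) := by gcongr
      _ = (δ * (4 * A)) * (√(X : ℝ) * (Real.log n) ^ 2) := by ring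
      _ ≤ 1 * (√(X : ℝ) * (Real.log n) ^ 2) := mul_le_mul_of_nonneg_right e3 (by positivity)
      _ = _ := one_mul _
  have h3 : ((quads B n).ncard : ℝ) ≤ ((quads (δ * √(n : ℝ) / (Real.log n) ^ 2) n).ncard : ℝ) := by
    exact_mod_cast quads_mono hBn n
  have h4 : δ₀ * (√(X : ℝ) / B) = δ₀ * A * (Real.log X) ^ 2 := by
    rw [hB]
    field_simp
  rw [h4]
  calc ((quads B n).ncard : ℝ) ≤ _ := h3
    _ < δ * (Real.log n) ^ 2 := hnr
    _ ≤ δ₀ * A * (Real.log X) ^ 2 := by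
        have : (Real.log n) ^ 2 ≤ (Real.log X) ^ 2 := pow_le_pow_left₀ hln0.le hlnX 2
        gcongr

/-- There are sets `E κ` of real numbers, of Hausdorff dimension less than one for all `κ ≥ 1`, such that: for every
`ε > 0` there is `δ > 0` such that for all `κ ≥ 1`, all real `β > 0` not in `E κ` and all large `M`: for all but at
most `ε M` of the `m ≤ M` the number `n = ⌊β m ^ κ⌋`, if odd, has at least `δ (log n)²` quadruples with
`n = x² + y² + z² + w²` for which all prime factors of `2 ^ (x + y) + 2 ^ (z + w) + 1` are larger than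
`δ √n / (log n)²`. -/
theorem result : ∃ E : ℝ → Set ℝ, (∀ κ : ℝ, 1 ≤ κ → dimH (E κ) < 1) ∧
    ∀ ε : ℝ, 0 < ε → ∃ δ : ℝ, 0 < δ ∧ ∀ κ : ℝ, 1 ≤ κ → ∀ β : ℝ, 0 < β → β ∉ E κ →
      ∀ᶠ M : ℕ in atTop, (count β κ (fun n => Odd n ∧ ¬ Rich δ n) M : ℝ) ≤ ε * M := by
  have hb : ∀ k : ℕ, ∃ δ : ℝ, 0 < δ ∧ ∀ᶠ X : ℕ in atTop,
      ({i : ℕ | X / 2 < i ∧ i ≤ X ∧ i ∈ {n : ℕ | Odd n ∧ ¬ Rich δ n}}.ncard : ℝ) ≤ 1 / ((k : ℝ) + 1) * X :=
    fun k => base _ (by positivity)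
  choose δ hδ hδX using hb
  have key : ∀ κ : ℝ, ∃ E : Set ℝ, 1 ≤ κ → (dimH E < 1 ∧ ∀ β : ℝ, 0 < β → β ∉ E → ∀ k : ℕ, ∃ c C : ℝ, 0 < c ∧
      ∀ M : ℕ, 1 ≤ M → |(Pool.Agent.Run7.h129.BU.cntA {n : ℕ | Odd n ∧ ¬ Rich (δ k) n} β κ M : ℝ) -
        Pool.Agent.Run7.h129.BU.volA {n : ℕ | Odd n ∧ ¬ Rich (δ k) n} β κ M| ≤ C * (M : ℝ) ^ (1 - c)) := by
    intro κ
    by_cases hκ : 1 ≤ κ
    · obtain ⟨c, D, hc, hc1, hD0, hD, h⟩ := Pool.Agent.Run7.h129.BU.main_U (by linarith : 0 < κ)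
      choose E hE hEβ using fun k : ℕ => h {n : ℕ | Odd n ∧ ¬ Rich (δ k) n}
      refine ⟨⋃ k, E k, fun _ => ⟨?_, fun β hβ hβE k => ?_⟩⟩
      · refine lt_of_le_of_lt (b := ENNReal.ofReal D) ?_ ?_
        · rw [dimH_iUnion]
          exact iSup_le hE
        · rw [← ENNReal.ofReal_one]
          exact (ENNReal.ofReal_lt_ofReal_iff one_pos).2 hD
      · obtain ⟨C, hC⟩ := hEβ k β hβ fun hcon => hβE (Set.mem_iUnion.2 ⟨_, hcon⟩)
        exact ⟨c, C, hc, hC⟩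
    · exact ⟨∅, fun h => absurd h hκ⟩
  choose E hE using key
  refine ⟨E, fun κ hκ => (hE κ hκ).1, fun ε hε => ?_⟩
  obtain ⟨k, hk⟩ := exists_nat_one_div_lt (by positivity : 0 < ε / 4)
  refine ⟨δ k, hδ k, fun κ hκ β hβ hβE => ?_⟩
  obtain ⟨c, C, hc, hC⟩ := (hE κ hκ).2 β hβ hβE k
  have h1 := Pool.Agent.Run7.h129.BU.dyadic_dens (A := {n : ℕ | Odd n ∧ ¬ Rich (δ k) n})
    (by positivity : (0 : ℝ) < 1 / ((k : ℝ) + 1)) (hδX k)
  have h2 : 3 * (1 / ((k : ℝ) + 1)) < ε := by linarith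
  have h3 := Pool.Agent.Run7.h129.BU.tu_dens (A := {n : ℕ | Odd n ∧ ¬ Rich (δ k) n}) (ε := 3 * (1 / ((k : ℝ) + 1)))
    (ε' := ε) hβ hκ hc (by positivity) h2 ⟨C, hC⟩ h1
  filter_upwards [h3] with M hM
  exact hM

end Pool.Agent.Results.MP_1e1427_nt.SparseSequences
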